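import Mathlib

set_option autoImplicit false

/-!
# The window `√r m < d < √r m + √r - 3` and Beatty sequences

For `10 ≤ r ≤ 15` put `α = (√r + 3) / (r - 9) = 1 / (√r - 3) > 1`. A pair `(m, d)` of natural numbers
lies in the window if and only if `m = ⌊j α⌋` and `d = 3 m + j` for some `j ≥ 1`.
-/

namespace Pool.Agent.R724.SH

/-- `α = (√r + 3) / (r - 9)` -/
noncomputable def alpha (r : ℕ) : ℝ := (Real.sqrt r + 3) / ((r : ℝ) - 9)

theorem sqrt_gt {r : ℕ} (hr : 10 ≤ r) : 3 < Real.sqrt r := by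
  rw [Real.lt_sqrt (by norm_num)]
  have : (10 : ℝ) ≤ r := by exact_mod_cast hr
  linarith

theorem sqrt_lt {r : ℕ} (hr' : r ≤ 15) : Real.sqrt r < 4 := by
  rw [Real.sqrt_lt' (by norm_num)]
  have : (r : ℝ) ≤ 15 := by exact_mod_cast hr'
  linarith

theorem alpha_mul {r : ℕ} (hr : 10 ≤ r) : alpha r * (Real.sqrt r - 3) = 1 := by
  have h1 : (10 : ℝ) ≤ r := by exact_mod_cast hr
  have h2 : Real.sqrt r * Real.sqrt r = r := Real.mul_self_sqrt (by linarith)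
  unfold alpha
  rw [div_mul_eq_mul_div, div_eq_one_iff_eq (by linarith)]
  linarith

theorem alpha_pos {r : ℕ} (hr : 10 ≤ r) : 0 < alpha r := by
  have h1 : (10 : ℝ) ≤ r := by exact_mod_cast hr
  unfold alpha
  have := Real.sqrt_nonneg (r : ℝ)
  apply div_pos <;> linarith

/-- from an inequality with `√r - 3` to one with `α` -/
theorem lt_mul_alpha {r : ℕ} (hr : 10 ≤ r) {x y : ℝ} (h : (Real.sqrt r - 3) * x < y) :
    x < y * alpha r := by
  have h1 := mul_lt_mul_of_pos_right h (alpha_pos hr)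
  have h2 := alpha_mul hr
  have h3 : (Real.sqrt r - 3) * x * alpha r = x := by
    rw [mul_right_comm, mul_comm (Real.sqrt r - 3), h2, one_mul]
  rwa [h3] at h1

theorem mul_alpha_lt {r : ℕ} (hr : 10 ≤ r) {x y : ℝ} (h : y < (Real.sqrt r - 3) * x) :
    y * alpha r < x := by
  have h1 := mul_lt_mul_of_pos_right h (alpha_pos hr)
  have h2 := alpha_mul hr
  have h3 : (Real.sqrt r - 3) * x * alpha r = x := by
    rw [mul_right_comm, mul_comm (Real.sqrt r - 3), h2, one_mul]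
  rwa [h3] at h1

/-- the general window -/
theorem beatty {r m d : ℕ} (hr : 10 ≤ r) (h1 : Real.sqrt r * m < d)
    (h2 : (d : ℝ) + 3 < Real.sqrt r * (m + 1)) :
    ∃ j : ℕ, 1 ≤ j ∧ m = ⌊(j : ℝ) * alpha r⌋₊ ∧ d = 3 * m + j := by
  have hs := sqrt_gt hr
  have hm : (0 : ℝ) ≤ m := Nat.cast_nonneg m
  have h3 : ((3 * m : ℕ) : ℝ) < d := by
    push_cast
    nlinarith
  have h4 : 3 * m < d := by exact_mod_cast h3
  obtain ⟨j, hj⟩ := Nat.exists_eq_add_of_lt h4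
  refine ⟨j + 1, by omega, ?_, by omega⟩
  have hjR : (d : ℝ) = 3 * m + ((j + 1 : ℕ) : ℝ) := by
    rw [hj]
    push_cast
    ring
  have h5 : (m : ℝ) < ((j + 1 : ℕ) : ℝ) * alpha r := by
    apply lt_mul_alpha hr
    linarith
  have h6 : ((j + 1 : ℕ) : ℝ) * alpha r < m + 1 := by
    apply mul_alpha_lt hr
    linarith
  symm
  rw [Nat.floor_eq_iff (by linarith)]
  exact ⟨h5.le, h6⟩

/-- the window for `3 ∣ d` below the centre -/
theorem beatty3 {r m d : ℕ} (hr : 10 ≤ r) (h0 : 3 ∣ d) (h1 : Real.sqrt r * m < d)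
    (h2 : 2 * (d : ℝ) + 3 < Real.sqrt r * (2 * m + 1)) :
    ∃ j : ℕ, 1 ≤ j ∧ m = ⌊3 * (j : ℝ) * alpha r⌋₊ ∧ Int.fract (3 * (j : ℝ) * alpha r) < 1 / 2 ∧
      d = 3 * (m + j) := by
  have hs := sqrt_gt hr
  obtain ⟨e, rfl⟩ := h0
  have hm : (0 : ℝ) ≤ m := Nat.cast_nonneg m
  push_cast at h1 h2
  have h3 : (m : ℝ) < e := by nlinarith
  have h4 : m < e := by exact_mod_cast h3
  obtain ⟨j, hj⟩ := Nat.exists_eq_add_of_lt h4
  have hjR : (e : ℝ) = m + ((j + 1 : ℕ) : ℝ) := by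
    rw [hj]
    push_cast
    ring
  have h5 : (m : ℝ) < 3 * ((j + 1 : ℕ) : ℝ) * alpha r := by
    apply lt_mul_alpha hr
    linarith
  have h6 : 3 * ((j + 1 : ℕ) : ℝ) * alpha r < m + 1 / 2 := by
    apply mul_alpha_lt hr
    linarith
  refine ⟨j + 1, by omega, ?_, ?_, by omega⟩
  · symm
    rw [Nat.floor_eq_iff (by linarith)]
    exact ⟨h5.le, by linarith⟩
  · have h7 : ⌊3 * ((j + 1 : ℕ) : ℝ) * alpha r⌋ = (m : ℤ) := by
      rw [Int.floor_eq_iff]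
      push_cast at h5 h6 ⊢
      exact ⟨h5.le, by linarith⟩
    unfold Int.fract
    rw [h7]
    push_cast at h5 h6 ⊢
    linarith

/-- consecutive terms of a Beatty sequence are far apart -/
theorem gap {x : ℝ} (hx : 0 ≤ x) {j j' : ℕ} (h : ⌊(j : ℝ) * x⌋₊ < ⌊(j' : ℝ) * x⌋₊) :
    ⌊(j : ℝ) * x⌋₊ + ⌊x⌋₊ ≤ ⌊(j' : ℝ) * x⌋₊ := by
  have hj : j < j' := by
    by_contra hcon
    have h1 : (j' : ℝ) * x ≤ (j : ℝ) * x := by
      apply mul_le_mul_of_nonneg_right _ hx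
      exact_mod_cast not_lt.1 hcon
    have := Nat.floor_le_floor h1
    omega
  have hjR : (j : ℝ) + 1 ≤ j' := by exact_mod_cast hj
  have h1 : (j : ℝ) * x + x ≤ (j' : ℝ) * x := by nlinarith
  have h2 : ((⌊(j : ℝ) * x⌋₊ + ⌊x⌋₊ : ℕ) : ℝ) ≤ (j' : ℝ) * x := by
    push_cast
    have h3 := Nat.floor_le (show 0 ≤ (j : ℝ) * x by positivity)
    have h4 := Nat.floor_le hx
    linarith
  exact Nat.le_floor h2

/-- an element of a Beatty sequence up to `M` has a small index, so there are few of them -/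
theorem count {x : ℝ} (hx : 0 < x) (A : Finset ℕ) (M : ℕ) (hA : ∀ m ∈ A, m ≤ M)
    (h : ∀ m ∈ A, ∃ j : ℕ, 1 ≤ j ∧ m = ⌊(j : ℝ) * x⌋₊) : (A.card : ℝ) * x ≤ M + 1 := by
  classical
  obtain ⟨f, hf⟩ : ∃ f : ℕ → ℕ, ∀ m ∈ A, 1 ≤ f m ∧ m = ⌊(f m : ℝ) * x⌋₊ := by
    have hex : ∀ m : ℕ, ∃ j : ℕ, m ∈ A → 1 ≤ j ∧ m = ⌊(j : ℝ) * x⌋₊ := by
      intro m
      by_cases hm : m ∈ A
      · obtain ⟨j, hj⟩ := h m hm
        exact ⟨j, fun _ => hj⟩
      · exact ⟨0, fun h' => absurd h' hm⟩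
    choose f hf using hex
    exact ⟨f, hf⟩
  have hinj : Set.InjOn f A := by
    intro m hm m' hm' he
    rw [(hf m hm).2, (hf m' hm').2, he]
  have himg : A.image f ⊆ Finset.Icc 1 ⌊((M : ℝ) + 1) / x⌋₊ := by
    intro j hj
    obtain ⟨m, hm, rfl⟩ := Finset.mem_image.1 hj
    rw [Finset.mem_Icc]
    refine ⟨(hf m hm).1, ?_⟩
    apply Nat.le_floor
    rw [le_div_iff₀ hx]
    have h1 := Nat.lt_floor_add_one ((f m : ℝ) * x)
    rw [← (hf m hm).2] at h1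
    have h2 : (m : ℝ) ≤ M := by exact_mod_cast hA m hm
    linarith
  have hc := Finset.card_le_card himg
  rw [Finset.card_image_of_injOn hinj, Nat.card_Icc, Nat.add_sub_cancel] at hc
  have hc' : (A.card : ℝ) ≤ ⌊((M : ℝ) + 1) / x⌋₊ := by exact_mod_cast hc
  have h3 : (⌊((M : ℝ) + 1) / x⌋₊ : ℝ) ≤ ((M : ℝ) + 1) / x :=
    Nat.floor_le (by positivity)
  have h4 := hc'.trans h3
  rwa [le_div_iff₀ hx] at h4

end Pool.Agent.R724.SH
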